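import Pool.Agent.NE.Stmts

set_option autoImplicit false

open Finset Filter Topology

namespace Pool.Agent.NE.H89

/-- the coefficients -/
noncomputable def A (σ : ℕ → ℕ) (w : ℕ → ℕ → ℝ) (β : ℕ → ℝ) : ℕ → ℕ → ℝ
  | 0, _ => 0
  | 1, _ => β 0
  | n + 2, j => if j = n + 1 then
      w (n + 2) (n + 1) / w (n + 1) (σ (n + 1)) * A σ w β (n + 1) (σ (n + 1)) - β (n + 1)
    else if j = σ (n + 1) then
      w (n + 2) (σ (n + 1)) / w (n + 1) (σ (n + 1)) * A σ w β (n + 1) (σ (n + 1)) + β (n + 1)
    else A σ w β (n + 1) j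

theorem bsq (anc_ : AncStmt) : BsqStmt := by
  intro X _ _ σ w Y M K B hK hyp β m n hmn
  set a := A σ w β with ha
  have ha2 : ∀ n, 1 ≤ n → a (n + 1) n = w (n + 1) n / w n (σ n) * a n (σ n) - β n ∧
      a (n + 1) (σ n) = w (n + 1) (σ n) / w n (σ n) * a n (σ n) + β n ∧
      ∀ j, j ≠ n → j ≠ σ n → a (n + 1) j = a n j := by
    intro n hn
    obtain ⟨k, rfl⟩ : ∃ k, n = k + 1 := ⟨n - 1, by omega⟩
    have h1 : σ (k + 1) ≠ k + 1 := (B.lt (k + 1) hn).ne
    refine ⟨?_, ?_, ?_⟩
    · rw [ha, A, if_pos rfl]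
    · rw [ha, A, if_neg h1, if_pos rfl]
    · intro j hj hj'
      rw [ha, A, if_neg hj, if_neg hj']
  -- the two sums
  have hsum : ∀ n, 1 ≤ n → ∑ i ∈ range n, β i • bs σ Y i = ∑ j ∈ range n, a n j • Y n j := by
    intro n hn
    induction n, hn using Nat.le_induction with
    | base => simp [ha, A, bs]
    | succ n hn ih =>
      obtain ⟨h1, h2, h3⟩ := ha2 n hn
      have hσ := B.lt n hn
      have hb : bs σ Y n = Y (n + 1) (σ n) - Y (n + 1) n := by
        unfold bs; rw [if_neg (by omega)]
      have hpos : 0 < w n (σ n) := B.pos n (σ n) hσ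
      have h4 : Y n (σ n) = (w (n + 1) (σ n) / w n (σ n)) • Y (n + 1) (σ n) +
          (w (n + 1) n / w n (σ n)) • Y (n + 1) n := by
        have h5 := B.y2 n hn
        have h6 : w n (σ n) • ((w (n + 1) (σ n) / w n (σ n)) • Y (n + 1) (σ n) +
          (w (n + 1) n / w n (σ n)) • Y (n + 1) n) = w n (σ n) • Y n (σ n) := by
          rw [smul_add, smul_smul, smul_smul, mul_div_cancel₀ _ hpos.ne',
            mul_div_cancel₀ _ hpos.ne', h5]
        exact (smul_right_injective X hpos.ne' h6).symm
      rw [sum_range_succ, ih, sum_range_succ, ← add_sum_erase _ _ (mem_range.2 hσ),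
        ← add_sum_erase (range n) (fun j => a (n + 1) j • Y (n + 1) j) (mem_range.2 hσ)]
      have h7 : ∑ j ∈ (range n).erase (σ n), a (n + 1) j • Y (n + 1) j =
          ∑ j ∈ (range n).erase (σ n), a n j • Y n j := by
        refine sum_congr rfl fun j hj => ?_
        rw [mem_erase, mem_range] at hj
        rw [h3 j hj.2.ne hj.1, B.y1 n j hj.2 hj.1]
      rw [h7, h1, h2, h4, hb]
      module
  have hcl : ∀ n n', 1 ≤ n → n ≤ n' → ∀ i, i < n →
      ∑ j ∈ range n' with anc σ n j = i, a n' j = a n i := by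
    intro n n' hn hnn
    induction n', hnn using Nat.le_induction with
    | base =>
      intro i hi
      have h1 : ∀ j ∈ range n, (anc σ n j = i ↔ j = i) := fun j hj => by
        rw [(anc_ σ 0 (fun i h1 h2 => absurd h2 (Nat.not_lt_zero _))).1 n j (mem_range.1 hj)]
      rw [filter_congr h1, filter_eq', if_pos (mem_range.2 hi), sum_singleton]
    | succ k hk ih =>
      intro i hi
      obtain ⟨h1, h2, h3⟩ := ha2 k (hn.trans hk)
      have hσ := B.lt k (hn.trans hk)
      have hpos : 0 < w k (σ k) := B.pos k (σ k) hσ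
      have hc : anc σ n k = anc σ n (σ k) :=
        (anc_ σ (k + 1) (fun i h _ => B.lt i h)).2.2.1 n k hn hk (Nat.lt_succ_self k)
      rw [← ih i hi, sum_filter, sum_filter, sum_range_succ,
        ← add_sum_erase _ _ (mem_range.2 hσ),
        ← add_sum_erase (range k) (fun j => if anc σ n j = i then a k j else 0) (mem_range.2 hσ)]
      have h7 : ∑ j ∈ (range k).erase (σ k), (if anc σ n j = i then a (k + 1) j else 0) =
          ∑ j ∈ (range k).erase (σ k), (if anc σ n j = i then a k j else 0) := by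
        refine sum_congr rfl fun j hj => ?_
        rw [mem_erase, mem_range] at hj
        rw [h3 j hj.2.ne hj.1]
      rw [h7, hc]
      by_cases h8 : anc σ n (σ k) = i
      · rw [if_pos h8, if_pos h8, if_pos h8, h1, h2]
        have hw := B.w2 k (hn.trans hk)
        have h9 : w (k + 1) (σ k) / w k (σ k) + w (k + 1) k / w k (σ k) = 1 := by
          rw [← add_div, ← hw, div_self hpos.ne']
        linear_combination a k (σ k) * h9
      · rw [if_neg h8, if_neg h8, if_neg h8]; ring
  rcases Nat.eq_zero_or_pos m with hm | hm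
  · subst hm
    rw [range_zero, sum_empty, norm_zero]
    positivity
  · rw [hsum m hm, hsum n (le_trans hm hmn)]
    have h1 := hyp m n (a n) hm hmn
    have h2 : ∑ i ∈ range m, (∑ j ∈ range n with anc σ m j = i, a n j) • Y m i =
        ∑ j ∈ range m, a m j • Y m j :=
      sum_congr rfl fun i hi => by rw [hcl m n hm hmn i (mem_range.1 hi)]
    rwa [h2] at h1

end Pool.Agent.NE.H89
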