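import Pool.Agent.NE.Stmts

set_option autoImplicit false

open Finset Filter Topology

namespace Pool.Agent.NE.H89

theorem cmp (nnb : NnbStmt) (vec : VecStmt) (sps : SpsStmt) (etp : EtpStmt) (los : LosStmt)
    (ups : UpsStmt) : CmpStmt := by
  intro X Z _ _ _ _ Ψ N p s σ θ L y C M Y hT hV hY t a
  have hnn := nnb N hT.two
  have h1n : 1 ≤ nn N t := (Nat.succ_le_succ (Nat.zero_le t)).trans (hnn.2.1 t)
  have hmono : Monotone (nn N) := hnn.2.2.2.1
  obtain ⟨sp1, -, sp3, -⟩ := sps N p s σ θ hT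
  -- the limit
  have hlim : Tendsto (fun T => J N L T (sp N σ θ (nn N t) T a)) atTop
      (𝓝 (Ψ (∑ i ∈ range (nn N t), a i • Y (nn N t) i))) := by
    have h1 : Tendsto (fun T => ∑ i ∈ range (nn N t), a i • S N σ θ L (nn N t) T i) atTop
        (𝓝 (∑ i ∈ range (nn N t), a i • Ψ (Y (nn N t) i))) :=
      tendsto_finset_sum _ fun i hi => (hY (nn N t) i (mem_range.1 hi)).const_smul (a i)
    have h2 : Ψ (∑ i ∈ range (nn N t), a i • Y (nn N t) i) =
        ∑ i ∈ range (nn N t), a i • Ψ (Y (nn N t) i) := by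
      rw [map_sum]; exact sum_congr rfl fun i _ => by rw [map_smul]
    rw [h2]
    refine h1.congr' ?_
    filter_upwards [eventually_ge_atTop t] with T hTt
    exact ((vec N p s σ θ hT Z L).1 (nn N t) T a h1n (hmono hTt)).symm
  have hJ : ∀ c c' : ℕ → ℝ, (∀ i, i < nn N t → c i = c' i) → J N L t c = J N L t c' :=
    fun c c' h => sum_congr rfl fun i hi => by rw [h i (mem_range.1 hi)]
  have hn : Tendsto (fun T => ‖J N L T (sp N σ θ (nn N t) T a)‖) atTop
      (𝓝 ‖∑ i ∈ range (nn N t), a i • Y (nn N t) i‖) := by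
    have := hlim.norm
    rwa [Ψ.norm_map] at this
  constructor
  · refine ge_of_tendsto (hn.const_mul 2) ?_
    filter_upwards [eventually_ge_atTop t] with T hTt
    have h1 := los X Z Ψ N p s σ θ L y C M hT hV t T (sp N σ θ (nn N t) T a) hTt
    rwa [hJ _ a fun i hi => sp1 (nn N t) T a i h1n (hmono hTt) hi] at h1
  · refine le_of_tendsto hn ?_
    filter_upwards [eventually_ge_atTop t] with T hTt
    have h1 := ups X Z Ψ N p s σ θ L y C M hT hV (nn N t) t T a 0 h1n le_rfl hTt
      (Submodule.zero_mem _)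
    rw [map_zero, add_zero, add_zero, hJ _ a fun i hi => sp3 t a i hi] at h1
    refine h1.trans (mul_le_mul_of_nonneg_right ?_ (norm_nonneg _))
    refine (etp t T).2.1.trans ?_
    have : (1 / 2 : ℝ) ^ (t + 1) ≤ 1 := pow_le_one₀ (by norm_num) (by norm_num)
    linarith

end Pool.Agent.NE.H89
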