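import Pool.Agent.NE.Stmts

set_option autoImplicit false

open Finset Filter Topology

namespace Pool.Agent.NE.H89

theorem rna (nnb : NnbStmt) (tre : TreStmt) : RnaStmt := by
  intro X Z _ _ _ _ Ψ Λ val Inv τ C M δ hM
  classical
  -- states
  let P : ℕ → Type := fun t => {x : ℕ × (ℕ → Λ) × Set X // Inv x.1 x.2.1 ∧ x.2.2.Finite ∧ t + 1 ≤ x.1}
  have hus : ∀ t, us t ≤ t := fun t => Nat.unpair_left_le t
  have hstep : ∀ (t : ℕ) (x : P t), ∃ D : ℕ × (ℕ → ℝ) × (ℕ → ℕ) × (ℕ → Λ) × X,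
      Inv (x.1.1 + (D.1 - 1)) (Ln x.1.1 (us t) x.1.2.1 D.2.2.2.1) ∧
      Step (Bs Ψ (fun i => val (x.1.2.1 i)) x.1.1 (us t) x.1.2.2) (val (x.1.2.1 (us t))) D.1 D.2.1
        D.2.2.1 (fun j => val (D.2.2.2.1 j)) (et t) C ∧
      Ret Ψ (Bs Ψ (fun i => val (x.1.2.1 i)) x.1.1 (us t) x.1.2.2) (val (x.1.2.1 (us t))) D.1 D.2.1
        (fun j => val (D.2.2.2.1 j)) (et t) τ D.2.2.2.2 := by
    intro t x
    obtain ⟨N, p, s, l, y, h1, h2, h3⟩ := hM.step x.1.1 x.1.2.1 x.2.1 (us t)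
      (lt_of_lt_of_le (Nat.lt_succ_of_le (hus t)) x.2.2.2) x.1.2.2 x.2.2.1 (et t)
      (by unfold et; positivity)
    exact ⟨(N, p, s, l, y), h1, h2, h3⟩
  choose D hD1 hD2 hD3 using hstep
  obtain ⟨loc0, hloc0, hv0⟩ := hM.start
  let x0 : P 0 := ⟨(1, loc0, ∅), hloc0, Set.finite_empty, le_rfl⟩
  let nx : ∀ t, P t → P (t + 1) := fun t x =>
    ⟨(x.1.1 + ((D t x).1 - 1), Ln x.1.1 (us t) x.1.2.1 (D t x).2.2.2.1,
      insert (D t x).2.2.2.2 x.1.2.2), hD1 t x, x.2.2.1.insert _, by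
        have h1 := (hD2 t x).two
        have h2 := x.2.2.2
        show t + 1 + 1 ≤ x.1.1 + ((D t x).1 - 1)
        omega⟩
  let st : ∀ t, P t := fun t => Nat.rec x0 nx t
  have hst : ∀ t, st (t + 1) = nx t (st t) := fun t => rfl
  let N : ℕ → ℕ := fun t => (D t (st t)).1
  let p : ℕ → ℕ → ℝ := fun t => (D t (st t)).2.1
  let s : ℕ → ℕ → ℕ := fun t => (D t (st t)).2.2.1
  let y : ℕ → X := fun t => (D t (st t)).2.2.2.2
  let L : ℕ → ℕ → Z := fun t i => val ((st t).1.2.1 i)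
  have hN2 : ∀ t, 2 ≤ N t := fun t => (hD2 t (st t)).two
  have hnn : ∀ t, nn N t = (st t).1.1 := by
    intro t
    induction t with
    | zero => simp [nn, st, x0]
    | succ t ih =>
      rw [(nnb N hN2).2.2.1 t, ih, hst]
  have hQ : ∀ t, (st t).1.2.2 = y '' Set.Iio t := by
    intro t
    induction t with
    | zero => simp [st, x0]
    | succ t ih =>
      rw [hst]
      change insert (y t) (st t).1.2.2 = _
      rw [ih]
      ext z
      simp only [Set.mem_insert_iff, Set.mem_image, Set.mem_Iio]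
      constructor
      · rintro (h | ⟨k, hk, hk'⟩)
        · exact ⟨t, Nat.lt_succ_self t, h.symm⟩
        · exact ⟨k, Nat.lt_succ_of_lt hk, hk'⟩
      · rintro ⟨k, hk, hk'⟩
        rcases Nat.lt_succ_iff_lt_or_eq.1 hk with h | h
        · exact Or.inr ⟨k, h, hk'⟩
        · left; rw [← hk', h]
  obtain ⟨σ, θ, hT⟩ := tre N p s hN2 (fun t => (hD2 t (st t)).pos) (fun t => (hD2 t (st t)).sum)
    (fun t => (hD2 t (st t)).lt)
  have hun : ∀ t, us t < nn N t := (nnb N hN2).1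
  have hix : ∀ t j, L (t + 1) (ix (nn N t) (us t) j) = val ((D t (st t)).2.2.2.1 j) := by
    intro t j
    change val ((nx t (st t)).1.2.1 (ix (nn N t) (us t) j)) = _
    congr 1
    change Ln (st t).1.1 (us t) (st t).1.2.1 (D t (st t)).2.2.2.1 (ix (nn N t) (us t) j) = _
    rw [← hnn]
    unfold Ln ix
    by_cases hj : j = 0
    · subst hj
      rw [if_pos rfl, if_pos (hun t), if_pos rfl]
    · rw [if_neg hj, if_neg (Nat.not_lt.2 (Nat.le_add_right _ _)), Nat.add_sub_cancel_left,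
        Nat.sub_add_cancel (Nat.one_le_iff_ne_zero.2 hj)]
  have hkeep : ∀ t i, i < nn N t → i ≠ us t → L (t + 1) i = L t i := by
    intro t i hi hi'
    change val ((nx t (st t)).1.2.1 i) = val ((st t).1.2.1 i)
    congr 1
    change Ln (st t).1.1 (us t) (st t).1.2.1 (D t (st t)).2.2.2.1 i = _
    rw [← hnn]
    unfold Ln
    rw [if_pos hi, if_neg hi']
  have hBs : ∀ t, Bs Ψ (fun i => val ((st t).1.2.1 i)) (st t).1.1 (us t) (st t).1.2.2 =
      Bs Ψ (L t) (nn N t) (us t) (y '' Set.Iio t) := fun t => by rw [hnn, hQ]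
  have hw : ∀ t, (fun j => L (t + 1) (ix (nn N t) (us t) j)) =
      fun j => val ((D t (st t)).2.2.2.1 j) := fun t => funext fun j => hix t j
  refine ⟨N, p, s, σ, θ, L, y, hT, ⟨?_, ?_, hkeep, ?_⟩, ?_, ?_⟩
  · exact hv0
  · intro t i hi
    rw [hnn] at hi
    exact hM.bdd _ _ (st t).2.1 i hi
  · intro t
    have h1 := hD2 t (st t)
    rw [hBs t] at h1
    rw [hw t]
    exact ⟨h1.two, h1.pos, h1.sum, h1.lt, h1.up, h1.lo, fun b hb a m hm hm' =>
      (h1.inn b hb a m hm hm').trans (mul_le_mul_of_nonneg_right (le_max_left _ _)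
        (norm_nonneg _)), h1.nz⟩
  · intro t
    have h1 := hD3 t (st t)
    rw [hBs t] at h1
    rw [hw t]
    exact h1
  · intro t i hi x
    rw [hnn] at hi
    exact hM.far _ _ (st t).2.1 i hi x

end Pool.Agent.NE.H89
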