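import Pool.Agent.NE.Stmts

set_option autoImplicit false

open Finset Filter Topology

namespace Pool.Agent.NE.H89

theorem spn : SpnStmt := by
  intro X _ _ σ w Y M B n
  induction n with
  | zero => intro i hi; exact absurd hi (Nat.not_lt_zero _)
  | succ n ih =>
    intro i hi
    rcases Nat.eq_zero_or_pos n with hn | hn
    · subst hn
      have h0 : i = 0 := by omega
      subst h0
      apply Submodule.subset_span
      exact ⟨0, by simp [bs]⟩
    · have hb : bs σ Y n = Y (n + 1) (σ n) - Y (n + 1) n := by
        unfold bs; rw [if_neg (by omega)]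
      have hs := ih (σ n) (B.lt n hn)
      have hbm : bs σ Y n ∈ Submodule.span ℝ (Set.range (bs σ Y)) :=
        Submodule.subset_span ⟨n, rfl⟩
      have h2 := B.y2 n hn
      have hw := B.w2 n hn
      have hpos : 0 < w n (σ n) := B.pos n (σ n) (B.lt n hn)
      have h3 : Y (n + 1) n = Y n (σ n) - (w (n + 1) (σ n) / w n (σ n)) • bs σ Y n := by
        have h4 : w n (σ n) • (Y n (σ n) - (w (n + 1) (σ n) / w n (σ n)) • bs σ Y n) =
            w n (σ n) • Y (n + 1) n := by
          rw [smul_sub, smul_smul, mul_div_cancel₀ _ hpos.ne', h2, hb, hw, smul_sub, add_smul]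
          abel
        exact (smul_right_injective X hpos.ne' h4).symm
      have h5 : Y (n + 1) n ∈ Submodule.span ℝ (Set.range (bs σ Y)) := by
        rw [h3]; exact Submodule.sub_mem _ hs (Submodule.smul_mem _ _ hbm)
      by_cases h6 : i = n
      · rw [h6]; exact h5
      · by_cases h7 : i = σ n
        · have h8 : Y (n + 1) (σ n) = bs σ Y n + Y (n + 1) n := by rw [hb]; abel
          rw [h7, h8]
          exact Submodule.add_mem _ hbm h5
        · rw [B.y1 n i (by omega) h7]
          exact ih i (by omega)

end Pool.Agent.NE.H89
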